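import Pool.Agent.Q162.Benzel.Adic3

/-!
# MP_70ae0e_co : 2-adic continuity of the stone-weighted tiling counts of the (n, 2n-3)-benzels

For every odd `q` (in particular for `q = 3`) the function `f n = ∑ q ^ (number of stones)`, summed
over all tilings of the `(n, 2n-3)`-benzel, `n ≥ 4`, is 2-adically continuous.
-/

namespace Pool.Agent.Results.MP_70ae0e_co.BenzelWeighted

open Pool.Agent.Q162.Benzel

theorem result (q : ℕ) (hq : Odd q) (k : ℕ) (hk : 1 ≤ k) :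
    ∃ m : ℕ, ∀ n n' : ℕ, 4 ≤ n → 4 ≤ n' → n ≡ n' [MOD 2 ^ m] →
      T113w (n : ℤ) (2 * (n : ℤ) - 3) q ≡ T113w (n' : ℤ) (2 * (n' : ℤ) - 3) q [MOD 2 ^ k] :=
  Pool.Agent.Q162.Bz.adic_larger hq k hk

end Pool.Agent.Results.MP_70ae0e_co.BenzelWeighted
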